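import Mathlib

/-!
V1: a valuation ring of `L`, trivial on `K`, for which the algebraically independent elements `T i`
have multiplicatively independent values.
-/

namespace Pool.Agent.Helper8.VL

universe u v

variable {K : Type u} {L : Type v} [Field K] [Field L] [Algebra K L] {r : ℕ}

/-- Laurent monomials -/
noncomputable def mon (T : Fin r → L) (n : Fin r → ℤ) : L := ∏ i, T i ^ n i

theorem mon_zero (T : Fin r → L) : mon T 0 = 1 := by simp [mon]

theorem mon_add {T : Fin r → L} (hT : ∀ i, T i ≠ 0) (n m : Fin r → ℤ) :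
    mon T (n + m) = mon T n * mon T m := by
  unfold mon
  rw [← Finset.prod_mul_distrib]
  exact Finset.prod_congr rfl fun i _ => zpow_add₀ (hT i) _ _

theorem mon_ne_zero {T : Fin r → L} (hT : ∀ i, T i ≠ 0) (n : Fin r → ℤ) : mon T n ≠ 0 :=
  Finset.prod_ne_zero_iff.mpr fun i _ => zpow_ne_zero _ (hT i)

theorem mon_neg {T : Fin r → L} (n : Fin r → ℤ) : mon T (-n) = (mon T n)⁻¹ := by
  unfold mon
  rw [← Finset.prod_inv_distrib]
  exact Finset.prod_congr rfl fun i _ => by rw [Pi.neg_apply, zpow_neg]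

/-- Laurent monomials of algebraically independent elements are linearly independent -/
theorem linearIndependent_mon {T : Fin r → L} (hT : AlgebraicIndependent K T) :
    LinearIndependent K (mon T) := by
  classical
  have hT0 : ∀ i, T i ≠ 0 := fun i => hT.ne_zero i
  rw [linearIndependent_iff']
  intro s c hc n hn
  -- shift by a large exponent
  obtain ⟨N, hN⟩ : ∃ N : ℕ, ∀ m ∈ s, ∀ i, 0 ≤ m i + N := by
    refine ⟨∑ m ∈ s, ∑ i, (m i).natAbs, fun m hm i => ?_⟩
    have h1 : (m i).natAbs ≤ ∑ m ∈ s, ∑ i, (m i).natAbs :=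
      (Finset.single_le_sum (f := fun i => (m i).natAbs) (fun _ _ => Nat.zero_le _)
        (Finset.mem_univ i)).trans
      (Finset.single_le_sum (f := fun m : Fin r → ℤ => ∑ i, (m i).natAbs)
        (fun _ _ => Nat.zero_le _) hm)
    omega
  let e : (Fin r → ℤ) → (Fin r →₀ ℕ) := fun m => Finsupp.equivFunOnFinite.symm fun i =>
    (m i + N).toNat
  have he : ∀ m ∈ s, mon T (m + fun _ => (N : ℤ)) = MvPolynomial.aeval T
      (MvPolynomial.monomial (e m) (1 : K)) := by
    intro m hm
    rw [MvPolynomial.aeval_monomial, map_one, one_mul, Finsupp.prod_fintype _ _ (by simp)]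
    unfold mon
    apply Finset.prod_congr rfl
    intro i _
    have h1 : (((m i + N).toNat : ℕ) : ℤ) = m i + N := Int.toNat_of_nonneg (hN m hm i)
    change T i ^ (m i + (N : ℤ)) = T i ^ (m i + N).toNat
    rw [← zpow_natCast, h1]
  have hinj : ∀ m ∈ s, ∀ m' ∈ s, e m = e m' → m = m' := by
    intro m hm m' hm' h
    funext i
    have h1 : (m i + N).toNat = (m' i + N).toNat := DFunLike.congr_fun h i
    have h2 := hN m hm i
    have h3 := hN m' hm' i
    omega
  let P : MvPolynomial (Fin r) K := ∑ m ∈ s, MvPolynomial.monomial (e m) (c m)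
  have hP : MvPolynomial.aeval T P = 0 := by
    have h1 : MvPolynomial.aeval T P = mon T (fun _ => (N : ℤ)) * ∑ m ∈ s, c m • mon T m := by
      rw [map_sum, Finset.mul_sum]
      apply Finset.sum_congr rfl
      intro m hm
      have h2 : MvPolynomial.monomial (e m) (c m) =
          c m • MvPolynomial.monomial (e m) (1 : K) := by
        rw [MvPolynomial.smul_monomial, smul_eq_mul, mul_one]
      rw [h2, map_smul, ← he m hm, mon_add hT0, mul_smul_comm, mul_comm]
    rw [h1, hc, mul_zero]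
  have hP0 : P = 0 := (injective_iff_map_eq_zero _).mp hT P hP
  have h1 : MvPolynomial.coeff (e n) P = c n := by
    rw [MvPolynomial.coeff_sum, Finset.sum_eq_single n]
    · rw [MvPolynomial.coeff_monomial, if_pos rfl]
    · intro m hm hmn
      rw [MvPolynomial.coeff_monomial, if_neg]
      intro h
      exact hmn (hinj m hm n hn h)
    · intro h; exact absurd hn h
  rw [← h1, hP0, MvPolynomial.coeff_zero]

/-- **V1.** -/
theorem exists_valuationSubring {T : Fin r → L} (hT : AlgebraicIndependent K T) :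
    ∃ V : ValuationSubring L, (∀ x : K, algebraMap K L x ∈ V) ∧
      ∀ n : Fin r → ℤ, n ≠ 0 → V.valuation (∏ i, T i ^ n i) ≠ 1 := by
  classical
  have hT0 : ∀ i, T i ≠ 0 := fun i => hT.ne_zero i
  let Sge : Submodule K L := Submodule.span K (mon T '' {n | (0 : Lex (Fin r → ℤ)) ≤ toLex n})
  let Sgt : Submodule K L := Submodule.span K (mon T '' {n | (0 : Lex (Fin r → ℤ)) < toLex n})
  have hone : (1 : L) ∈ Sge := Submodule.subset_span ⟨0, by
    change (0 : Lex (Fin r → ℤ)) ≤ 0
    exact le_rfl, mon_zero T⟩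
  have hmul : ∀ x ∈ Sge, ∀ y ∈ Sge, x * y ∈ Sge := by
    intro x hx y hy
    have h1 : x * y ∈ Sge * Sge := Submodule.mul_mem_mul hx hy
    rw [Submodule.span_mul_span] at h1
    refine Submodule.span_mono ?_ h1
    rintro _ ⟨_, ⟨n, hn, rfl⟩, _, ⟨m, hm, rfl⟩, rfl⟩
    have h2 : (0 : Lex (Fin r → ℤ)) ≤ toLex n + toLex m := add_nonneg hn hm
    exact ⟨n + m, h2, mon_add hT0 n m⟩
  have hmul2 : ∀ x ∈ Sge, ∀ y ∈ Sgt, x * y ∈ Sgt := by
    intro x hx y hy
    have h1 : x * y ∈ Sge * Sgt := Submodule.mul_mem_mul hx hy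
    rw [Submodule.span_mul_span] at h1
    refine Submodule.span_mono ?_ h1
    rintro _ ⟨_, ⟨n, hn, rfl⟩, _, ⟨m, hm, rfl⟩, rfl⟩
    have h2 : (0 : Lex (Fin r → ℤ)) < toLex n + toLex m := add_pos_of_nonneg_of_pos hn hm
    exact ⟨n + m, h2, mon_add hT0 n m⟩
  have hle : Sgt ≤ Sge := by
    apply Submodule.span_mono
    apply Set.image_mono
    intro n (hn : (0 : Lex (Fin r → ℤ)) < toLex n)
    exact le_of_lt hn
  let A : Subalgebra K L :=
    { carrier := Sge
      mul_mem' := fun {x y} hx hy => hmul x hx y hy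
      add_mem' := fun {x y} hx hy => Sge.add_mem hx hy
      algebraMap_mem' := fun c => by
        rw [Algebra.algebraMap_eq_smul_one]
        exact Sge.smul_mem c hone }
  let I : Ideal A.toSubring :=
    { carrier := {x | (x : L) ∈ Sgt}
      add_mem' := fun {x y} hx hy => Sgt.add_mem hx hy
      zero_mem' := Sgt.zero_mem
      smul_mem' := fun c x hx => hmul2 c c.2 x hx }
  have hI : I ≠ ⊤ := by
    rw [Ideal.ne_top_iff_one]
    intro h1
    have h2 : mon T 0 ∈ Sgt := by
      rw [mon_zero]; exact h1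
    refine (linearIndependent_mon hT).notMem_span_image (x := 0) ?_ h2
    intro (h3 : (0 : Lex (Fin r → ℤ)) < 0)
    exact lt_irrefl _ h3
  obtain ⟨V, hAV, hIV⟩ := Ideal.image_subset_nonunits_valuationSubring I hI
  refine ⟨V, fun x => hAV (A.algebraMap_mem x), ?_⟩
  have hpos : ∀ n : Fin r → ℤ, (0 : Lex (Fin r → ℤ)) < toLex n → V.valuation (mon T n) < 1 := by
    intro n hn
    have h1 : mon T n ∈ Sgt := Submodule.subset_span ⟨n, hn, rfl⟩
    have h2 : mon T n ∈ V.nonunits := hIV ⟨⟨mon T n, hle h1⟩, h1, rfl⟩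
    exact V.mem_nonunits_iff.mp h2
  intro n hn
  have hn' : toLex n ≠ (0 : Lex (Fin r → ℤ)) := hn
  rcases lt_or_gt_of_ne hn' with h | h
  · have h1 : (0 : Lex (Fin r → ℤ)) < toLex (-n) := by
      rw [toLex_neg]
      exact neg_pos.mpr h
    have h2 := hpos (-n) h1
    rw [mon_neg, map_inv₀] at h2
    intro h3
    change V.valuation (mon T n) = 1 at h3
    rw [h3, inv_one] at h2
    exact lt_irrefl _ h2
  · exact (hpos n h).ne

end Pool.Agent.Helper8.VL
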