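import Pool.Agent.Helper5.V.Defs
import Pool.Agent.Helper8.VL.V1

/-!
V1 in the form of the skeleton.
-/

open MvPolynomial

namespace VF

universe u

theorem stV1 : StV1.{u} := by
  intro K L _ _ _ r T hT
  obtain ⟨V, h1, h2⟩ := Pool.Agent.Helper8.VL.exists_valuationSubring hT
  refine ⟨V, h1, ?_⟩
  intro n hn
  by_contra h0
  apply h2 n h0
  rw [map_prod]
  rw [← hn]
  exact Finset.prod_congr rfl fun i _ => map_zpow₀ _ _ _

end VF
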